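import Pool.Agent.MP_c9a892_co.H41.Spec

/-!
Assembly of the steps.
-/

set_option autoImplicit false

namespace Pool.Agent.MP_c9a892_co.H41

open Finset
open scoped Classical

theorem eng_of {V I : Type} [Fintype V] [DecidableEq V] [Fintype I] [DecidableEq I]
    (h1 : InitS) (h2 : BestS) (h3 : FrzS) (h4 : BigS) (p : Par V I) (hp : Ok p) :
    Eng p.l p.n p.b p.J0 p.E p.Z
      (fun A B Big C => ∃ s : St V I, s.A = A ∧ s.B = B ∧ s.Big = Big ∧ s.C = C ∧ Good p s)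
      (fun A B Big C => ∃ s : St V I, s.A = A ∧ s.B = B ∧ s.Big = Big ∧ s.C = C ∧ Mid p s) where
  init := ⟨st0 V I, rfl, rfl, rfl, rfl, h1 V I p hp⟩
  gm := by
    rintro _ _ _ _ ⟨s, rfl, rfl, rfl, rfl, h⟩
    exact ⟨s, rfl, rfl, rfl, rfl, h.1⟩
  big := by
    rintro _ _ _ _ x ⟨s, rfl, rfl, rfl, rfl, h⟩ a b
    exact ⟨mk p s x, rfl, rfl, rfl, rfl, h4 V I p s x hp h a b⟩
  small := by
    rintro _ _ _ _ x ⟨s, rfl, rfl, rfl, rfl, h⟩ a b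
    exact ⟨{ s with A := insert x s.A }, rfl, rfl, rfl, rfl, (h2 V I p s hp).1 x h a b⟩
  brk := by
    rintro _ _ _ _ x ⟨s, rfl, rfl, rfl, rfl, h⟩ a b
    exact ⟨{ s with B := insert x s.B }, rfl, rfl, rfl, rfl, (h2 V I p s hp).2.1 x h a b⟩
  best := by
    rintro _ _ _ _ ⟨s, rfl, rfl, rfl, rfl, h⟩ a
    obtain ⟨y, b, c, e⟩ := (h2 V I p s hp).2.2 h a
    exact ⟨y, b, c, { s with B := insert y s.B }, rfl, rfl, rfl, rfl, e⟩
  frz := by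
    rintro _ _ _ _ i z z' ⟨s, rfl, rfl, rfl, rfl, h⟩ a b c e f g k
    exact ⟨{ s with C := insert (z, i) (insert (z', i) s.C) }, rfl, rfl, rfl, rfl,
      (h3 V I p s hp h).1 i z z' a b c e f g k⟩
  forb := by
    rintro _ _ _ _ ⟨s, rfl, rfl, rfl, rfl, h⟩
    exact (h3 V I p s hp h).2

theorem draw_of (h1 : InitS) (h2 : BestS) (h3 : FrzS) (h4 : BigS) (hS : SpreadS) (hZ : ZcS)
    (hH : HlS) (hG : GameS) (hO : OriS) (hC : CanS) (hL : LowS) (hT : TwoS) (hA : ParAS)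
    (hB : ParBS) (hN : NumS) (ε : ℝ) (hε : 0 < ε) : ∃ n0 : ℕ, ∀ n ≥ n0, ∀ d : ℕ,
      (d : ℝ) ≤ (1 - ε) * (Real.log 2 / 2 * n ^ 2 / Real.log n) →
      ∀ K, ¬ Win (HasLine (n := n) (d := d)) K ∅ ∅ true := by
  obtain ⟨q, hq, hN⟩ := hN ε hε
  obtain ⟨n1, hN⟩ := hN (800 * q ^ 5)
  obtain ⟨n2, hA⟩ := hA q hq
  obtain ⟨n3, hB⟩ := hB q (800 * q ^ 5) hq
  refine ⟨n1 + n2 + n3 + 2, fun n hn d hd K => ?_⟩
  obtain ⟨m0, a1, a2, a3, a4⟩ := hN n (by omega) d hd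
  obtain ⟨J, r, i0, b, t, rfl, b1, b2, b3, b4, b5, b6⟩ := hA n (by omega)
  have hcard : Fintype.card (Fin d → Fin n) = n ^ d := by simp
  obtain ⟨lam, θ, T, c1, c2, c3, c4, c5, c6, c7⟩ := hB n (by omega) (n ^ d) (n * 3 ^ d) _ _
    (b + 1) r (Nat.one_le_pow _ _ (by omega)) a1 a2 a3 a4 b6
  obtain ⟨hlin, hhas, -⟩ := hC n d (by omega)
  have hdeg : ∀ x : Fin d → Fin n,
      (univ.filter fun τ : Ln n d => x ∈ ln τ.1).card ≤ n * 3 ^ d := fun x => by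
    refine le_trans ?_ ((hO n d).2.2 x)
    refine card_le_card_of_injOn Subtype.val (fun τ hτ => ?_) Subtype.val_injective.injOn
    simpa using hτ
  have hZ' := hZ _ _ (fun τ : Ln n d => ln τ.1) n _ (800 * q ^ 5) (q * n) hlin (by omega) hdeg
  let p : Par (Fin d → Fin n) (Ln n d) :=
    ⟨fun τ => ln τ.1, lowS m0, n, 2 * d / (m0 + 1) + 1, n * ∑ k ∈ range (m0 + 1), d.choose k,
      q * n, b + 1, q * n * r, lam, T, θ, Zs (fun τ : Ln n d => ln τ.1) (800 * q ^ 5) (q * n)⟩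
  have hp : Ok p := by
    refine ⟨hlin, fun x τ hτ => ?_, (hL n d m0).1, fun τ => ?_, c1, c2, ?_, by simp [p]; omega,
      c3, ?_, c5, ?_, ?_⟩
    · obtain ⟨i, hi, -⟩ := (mem_filter.1 hτ).2
      exact mem_ln.2 ⟨i, hi⟩
    · convert (hL n d m0).2 τ
    · refine Nat.lt_of_mul_lt_mul_left (a := q) ?_
      change q * (2 * d / (m0 + 1) + 1) < q * (b + 1)
      omega
    · simpa only [p, Par.M, hcard] using c4
    · simpa only [p, hcard] using c6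
    · refine lt_of_le_of_lt ?_ c7
      have h0 : 0 ≤ lam := zero_le_one.trans c1
      rw [hcard] at hZ'
      change 6 * ((Zs (fun τ : Ln n d => ln τ.1) (800 * q ^ 5) (q * n)).card : ℝ) * T ^ (q * n) *
        lam ^ (q * n * r) ≤ _
      gcongr
  have hE := eng_of h1 h2 h3 h4 p hp
  refine hG _ _ p.l n b t (800 * q ^ 5) (q * n) (q * n * r) p.Z _ _ hlin b5 hE
    (fun A B Big C hM hC2 => ?_) _ K hhas
  exact hH _ _ p.l n J (q * n) (q * n * r) (t + 1) (800 * q ^ 5) C hlin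
    (hS _ _ p.l n cenS GP 128 (9 * n) r J (q * n) hlin (hT n d (by omega)) b1 b2 b3) b4 hC2
    (hE.forb A B Big C hM)

theorem win_of (hO : OriS) (hW : WinS) (hD : DegS) (hM : MnumS) (ε : ℝ) (hε : 0 < ε) :
    ∃ n0 : ℕ, ∀ n ≥ n0, ∀ d : ℕ, (1 + ε) * (Real.log 2 / 2 * n ^ 2 / Real.log n) ≤ d →
      Win (HasLine (n := n) (d := d)) (fun _ => False) ∅ ∅ true := by
  obtain ⟨n0, hM⟩ := hM ε hε
  refine ⟨n0 + 1, fun n hn d hd => ?_⟩
  obtain ⟨s, m, a1, a2, a3, a4⟩ := hM n (by omega) d hd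
  obtain ⟨F, hne, hact, hdeg⟩ := hD n d s m a1 a2
  obtain ⟨o1, o2, -⟩ := hO n d
  refine hW _ _ ln n (n ^ 2) F _ (fun τ hτ => (o1 τ (hact τ hτ)).2) (fun x y hxy => ?_) ?_ ?_
  · refine le_trans (card_le_card fun τ hτ => ?_) (o2 x y hxy)
    exact mem_filter.2 ⟨mem_univ _, (mem_filter.1 hτ).2⟩
  · rintro A ⟨τ, hτ, hA⟩
    exact ⟨pt τ, (o1 τ (hact τ hτ)).1, fun i => hA (mem_ln.2 ⟨i, rfl⟩)⟩
  · have h1 : ∑ x ∈ F.biUnion ln, (F.filter fun τ => x ∈ ln τ).card = F.card * n := by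
      simp only [card_filter]
      rw [sum_comm, ← smul_eq_mul, ← sum_const]
      refine sum_congr rfl fun τ hτ => ?_
      rw [← card_filter]
      refine Eq.trans ?_ (o1 τ (hact τ hτ)).2
      congr 1
      ext x
      simp only [mem_filter, mem_biUnion]
      exact ⟨fun h => h.2, fun h => ⟨⟨τ, hτ, h⟩, h⟩⟩
    have h2 : (F.biUnion ln).card * (n ^ 3 * 2 ^ n + 1) ≤ F.card * n := by
      rw [← h1, ← smul_eq_mul]
      refine card_nsmul_le_sum _ _ _ fun x hx => ?_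
      obtain ⟨τ, hτ, hx⟩ := mem_biUnion.1 hx
      obtain ⟨i, rfl⟩ := mem_ln.1 hx
      refine le_trans (le_min a3 a4) ?_
      convert hdeg τ hτ i
    have h3 : 0 < (F.biUnion ln).card := by
      obtain ⟨τ, hτ⟩ := hne
      exact card_pos.2 ⟨_, mem_biUnion.2 ⟨τ, hτ, mem_ln.2 ⟨⟨0, by omega⟩, rfl⟩⟩⟩
    refine Nat.lt_of_mul_lt_mul_right (a := n) (lt_of_lt_of_le ?_ h2)
    nlinarith

end Pool.Agent.MP_c9a892_co.H41
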