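import Mathlib

set_option autoImplicit false

namespace Pool.Agent.MP_c9a892_co.H41

/-- `x` lists the points of a geometric line of the cube -/
def IsLine {n d : ℕ} (x : Fin n → Fin d → Fin n) : Prop :=
  Function.Injective x ∧ ∀ j, (∃ c, ∀ i, x i j = c) ∨ (∀ i, x i j = i) ∨ ∀ i, x i j = i.rev

/-- the set `A` contains a geometric line -/
def HasLine {n d : ℕ} (A : Finset (Fin d → Fin n)) : Prop :=
  ∃ x : Fin n → Fin d → Fin n, IsLine x ∧ ∀ i, x i ∈ A

/-- `Win H K A B b`: the first player owns `A`, the second player owns `B`, the flag `b` says that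
the first player is to move, and the first player can force to own a set with `H` before the second
player owns a set with `K`. -/
inductive Win {V : Type} [DecidableEq V] (H K : Finset V → Prop) :
    Finset V → Finset V → Bool → Prop
  | done (A B : Finset V) (b : Bool) : H A → Win H K A B b
  | first (A B : Finset V) (x : V) : x ∉ A → x ∉ B → Win H K (insert x A) B false →
      Win H K A B true
  | second (A B : Finset V) : (∃ y, y ∉ A ∧ y ∉ B) → (∀ y, y ∉ A → y ∉ B → ¬ K (insert y B)) →
      (∀ y, y ∉ A → y ∉ B → Win H K A (insert y B) true) → Win H K A B false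

end Pool.Agent.MP_c9a892_co.H41
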