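import Pool.Agent.MP_c9a892_co.H41.Asm
import Pool.Agent.MP_c9a892_co.R.Rich
import Pool.Agent.MP_c9a892_co.R.Spread
import Pool.Agent.MP_c9a892_co.R.Hl
import Pool.Agent.MP_c9a892_co.R.Loop
import Pool.Agent.MP_c9a892_co.R.Game
import Pool.Agent.MP_c9a892_co.R.Init
import Pool.Agent.MP_c9a892_co.R.Best
import Pool.Agent.MP_c9a892_co.R.Frz
import Pool.Agent.MP_c9a892_co.R.Big1
import Pool.Agent.MP_c9a892_co.R.Big2
import Pool.Agent.MP_c9a892_co.R.Big3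
import Pool.Agent.MP_c9a892_co.R.Big
import Pool.Agent.MP_c9a892_co.R.Ori
import Pool.Agent.MP_c9a892_co.R.Can
import Pool.Agent.MP_c9a892_co.R.Low
import Pool.Agent.MP_c9a892_co.R.Few
import Pool.Agent.MP_c9a892_co.R.Two
import Pool.Agent.MP_c9a892_co.R.ParA
import Pool.Agent.MP_c9a892_co.R.ParB
import Pool.Agent.MP_c9a892_co.R.Num
import Pool.Agent.MP_c9a892_co.R.Win
import Pool.Agent.MP_c9a892_co.R.Deg
import Pool.Agent.MP_c9a892_co.R.Mnum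

/-!
The two halves of the threshold.
-/

set_option autoImplicit false

namespace Pool.Agent.MP_c9a892_co.H41

theorem weak_win (ε : ℝ) (hε : 0 < ε) :
    ∃ n0 : ℕ, ∀ n ≥ n0, ∀ d : ℕ, (1 + ε) * (Real.log 2 / 2 * n ^ 2 / Real.log n) ≤ d →
      Win (HasLine (n := n) (d := d)) (fun _ => False) ∅ ∅ true :=
  win_of rowOri rowWin rowDeg rowMnum ε hε

theorem strong_draw (ε : ℝ) (hε : 0 < ε) : ∃ n0 : ℕ, ∀ n ≥ n0, ∀ d : ℕ,
    (d : ℝ) ≤ (1 - ε) * (Real.log 2 / 2 * n ^ 2 / Real.log n) →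
    ∀ K, ¬ Win (HasLine (n := n) (d := d)) K ∅ ∅ true :=
  draw_of rowInit rowBest rowFrz (rowBig rowBig1 rowBig2 rowBig3) (rowSpread.1 rowRich)
    rowSpread.2 rowHl.1 (rowGame rowHl.2 (rowLoop rowHl.2)) rowOri rowCan rowLow
    (rowTwo rowCan rowFew) rowParA rowParB rowNum ε hε

end Pool.Agent.MP_c9a892_co.H41
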