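import Pool.Agent.MP_c9a892_co.H41.Defs

/-!
Definitions and statements of the steps: the sharp threshold between weak win and strong draw.
-/

set_option autoImplicit false

namespace Pool.Agent.MP_c9a892_co.H41

open Finset
open scoped Classical

noncomputable section

section abs

variable {V I : Type} [Fintype V] [DecidableEq V] [Fintype I] [DecidableEq I]

/-- every line has `n` points and two points lie on at most one line -/
structure Lin (l : I → Finset V) (n : ℕ) : Prop where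
  card : ∀ i, (l i).card = n
  lin : ∀ i i' x y, x ≠ y → x ∈ l i → y ∈ l i → x ∈ l i' → y ∈ l i' → i = i'

/-- among `J` lines there are `J0` with total overlap at most `E` -/
def Spread (l : I → Finset V) (n J J0 E : ℕ) : Prop :=
  ∀ F : Finset I, J ≤ F.card → ∃ σ : Fin J0 → I, (∀ k, σ k ∈ F) ∧
    J0 * n ≤ (univ.biUnion fun k => l (σ k)).card + E

/-- few generic paths of length two join two given points -/
structure Two (l : I → Finset V) (cen : V → I → Prop) (G : V → V → V → Prop) (c a : ℕ) :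
    Prop where
  one : ∀ i x y, x ∈ l i → y ∈ l i → cen x i → cen y i → x = y
  ne : ∀ y w z, G y w z → y ≠ w ∧ z ≠ w
  few : ∀ y z, ∃ S : Finset V, S.card ≤ c ∧ ∀ w, G y w z → w ∈ S
  most : ∀ i i' w, i ≠ i' → w ∈ l i → w ∈ l i' → ¬ cen w i → ¬ cen w i' →
    ∃ S : Finset (V × V), S.card ≤ a ∧ ∀ y ∈ l i, ∀ z ∈ l i', (y, z) ∉ S → G y w z

/-- tuples of points in a union of `i0` lines that meet a common line -/
def Zs (l : I → Finset V) (i0 J0 : ℕ) : Finset (Fin J0 → V) :=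
  univ.filter fun z => ∃ (i : I) (F : Finset I), F.card = i0 ∧
    (∀ ρ ∈ F, (l ρ ∩ l i).Nonempty) ∧ ∀ k, ∃ ρ ∈ F, z k ∈ l ρ

/-- lines that meet the line `i` and hold at least `t0` points reserved by `C` -/
def rich (l : I → Finset V) (t0 : ℕ) (C : Finset (V × I)) (i : I) : Finset I :=
  univ.filter fun ρ => (l ρ ∩ l i).Nonempty ∧ t0 ≤ (l ρ ∩ C.image Prod.fst).card

/-- What the pairing argument uses of the potential. Arguments of `G`, `M`: points of the first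
player, points of the second player, big points, certified pairs (point, line). -/
structure Eng (l : I → Finset V) (n b J0 E : ℕ) (Z : Finset (Fin J0 → V))
    (G M : Finset V → Finset V → Finset V → Finset (V × I) → Prop) : Prop where
  init : G ∅ ∅ ∅ ∅
  gm : ∀ A B Big C, G A B Big C → M A B Big C
  big : ∀ A B Big C x, G A B Big C → x ∉ A → x ∉ B → M (insert x A) B (insert x Big) C
  small : ∀ A B Big C x, G A B Big C → x ∉ A → x ∉ B → G (insert x A) B Big C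
  brk : ∀ A B Big C y, G A B Big C → y ∉ A → y ∉ B → G A (insert y B) Big C
  best : ∀ A B Big C, M A B Big C → (∃ y, y ∉ A ∧ y ∉ B) →
    ∃ y, y ∉ A ∧ y ∉ B ∧ G A (insert y B) Big C
  frz : ∀ A B Big C i z z', M A B Big C → i ∉ C.image Prod.snd → Disjoint B (l i) →
    b ≤ (Big ∩ l i).card → z ∈ l i → z' ∈ l i → z ∉ A → z' ∉ A →
    M A B Big (insert (z, i) (insert (z', i) C))
  forb : ∀ A B Big C, M A B Big C → ∀ z ∈ Z, ∀ σ : Fin J0 → I, (∀ k, (z k, σ k) ∈ C) →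
    (univ.biUnion fun k => l (σ k)).card + E < J0 * n

/-- The pairing invariant: `C` the pairs of the leaves, `Hv` the pairs of the heavy lines. -/
structure PI (l : I → Finset V) (t0 : ℕ) (A B Big : Finset V) (C Hv : Finset (V × I)) :
    Prop where
  dis : Disjoint A B
  cov : ∀ x ∈ A, x ∈ Big ∨ x ∈ (C ∪ Hv).image Prod.fst
  two : ∀ i, (C.filter fun p => p.2 = i).card ≤ 2
  mem : ∀ p ∈ C ∪ Hv, p.1 ∈ l p.2
  uniq : ∀ p ∈ C ∪ Hv, ∀ q ∈ C ∪ Hv, p.1 = q.1 → p.2 = q.2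
  pair : ∀ p ∈ C ∪ Hv, Disjoint B (l p.2) → p.1 ∉ A ∧ ∃ z, z ≠ p.1 ∧ (z, p.2) ∈ C ∪ Hv
  heavy : ∀ p ∈ Hv, t0 ≤ (l p.2 ∩ C.image Prod.fst).card

/-- alive unpaired lines have at most `b` big points and at most `t` points reserved by leaves -/
def Cap (l : I → Finset V) (b t : ℕ) (B Big : Finset V) (C Hv : Finset (V × I)) : Prop :=
  ∀ i, i ∉ (C ∪ Hv).image Prod.snd → Disjoint B (l i) →
    (Big ∩ l i).card ≤ b ∧ (l i ∩ C.image Prod.fst).card ≤ t

/-- every line meets fewer than `i0` rich lines -/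
def FewRich (l : I → Finset V) (t0 i0 : ℕ)
    (M : Finset V → Finset V → Finset V → Finset (V × I) → Prop) : Prop :=
  ∀ A B Big C, M A B Big C → (∀ i, (C.filter fun p => p.2 = i).card ≤ 2) →
    ∀ i, (rich l t0 C i).card < i0

end abs

/-- parameters of the potential -/
structure Par (V I : Type) where
  l : I → Finset V
  low : V → Finset I
  n : ℕ
  h : ℕ
  D : ℕ
  J0 : ℕ
  b : ℕ
  E : ℕ
  lam : ℝ
  T : ℝ
  θ : ℝ
  Z : Finset (Fin J0 → V)

/-- state of the potential -/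
structure St (V I : Type) where
  A : Finset V
  B : Finset V
  Big : Finset V
  C : Finset (V × I)
  arr : Finset I
  cnt : I → Finset V
  m : V → I → ℝ

section pot

variable {V I : Type} [Fintype V] [DecidableEq V] [Fintype I] [DecidableEq I]

/-- bound for the mass that arrives in one move -/
def Par.M (p : Par V I) : ℝ :=
  p.lam * (2 * p.lam ^ p.h * Real.log (6 * Fintype.card V) + 2 * p.D)

structure Ok (p : Par V I) : Prop where
  lin : Lin p.l p.n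
  lowmem : ∀ x, ∀ i ∈ p.low x, x ∈ p.l i
  lowcard : ∀ x, (p.low x).card ≤ p.D
  high : ∀ i, ((p.l i).filter fun x => i ∉ p.low x).card ≤ p.h
  one : 1 ≤ p.lam
  two : p.lam ≤ 2
  hb : p.h < p.b
  npos : 1 ≤ p.n
  θpos : 0 < p.θ
  θM : 2 * p.n * p.θ * p.M ≤ 2 - p.lam
  Tpos : 0 < p.T
  θT : Real.log (6 * Fintype.card V) ≤ p.θ * p.T
  big : 6 * p.Z.card * p.T ^ p.J0 * p.lam ^ p.E < p.lam ^ (p.J0 * p.b)

/-- the frozen lines -/
def St.done (s : St V I) : Finset I := s.C.image Prod.snd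

def St.mass (s : St V I) (z : V) : ℝ := ∑ i, s.m z i

/-- the weights at `z`, of total `T` -/
def mo (p : Par V I) (s : St V I) (z : V) (o : Option I) : ℝ :=
  o.elim (p.T - s.mass z) (s.m z)

/-- index of the terms of the first potential -/
abbrev T1 (V I : Type) : Type := V × Finset I

/-- index of the terms of the third potential -/
abbrev T3 (p : Par V I) : Type := (Fin p.J0 → V) × (Fin p.J0 → Option I)

/-- the points that kill a term -/
def kill (p : Par V I) (s : St V I) : T1 V I ⊕ T3 p → Finset V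
  | .inl t => t.2.biUnion p.l
  | .inr t => univ.biUnion fun k => (t.2 k).elim ∅ fun i => if i ∈ s.done then ∅ else p.l i

/-- the weight of a term that is not killed -/
def raw (p : Par V I) (s : St V I) : T1 V I ⊕ T3 p → ℝ
  | .inl t => if t.2 ⊆ p.low t.1 then
      (Fintype.card V * Real.exp ((p.lam ^ p.h)⁻¹ * p.D))⁻¹ * ((p.lam ^ p.h)⁻¹) ^ t.2.card *
        p.lam ^ (s.Big ∩ t.2.biUnion p.l).card else 0
  | .inr t => if t.1 ∈ p.Z then
      (p.Z.card * p.T ^ p.J0)⁻¹ * (∏ k, mo p s (t.1 k) (t.2 k)) *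
        p.lam ^ (univ.biUnion fun k => (t.2 k).elim ∅ s.cnt).card else 0

def wt (p : Par V I) (s : St V I) (t : T1 V I ⊕ T3 p) : ℝ :=
  if Disjoint s.B (kill p s t) then raw p s t else 0

/-- the weight of the terms killed by `x` -/
def W (p : Par V I) (s : St V I) (x : V) : ℝ :=
  ∑ t, if x ∈ kill p s t then wt p s t else 0

def L (p : Par V I) (s : St V I) (z : V) : ℝ :=
  (Fintype.card V : ℝ)⁻¹ * Real.exp (p.θ * s.mass z)

/-- the potential -/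
def Phi (p : Par V I) (s : St V I) : ℝ := ∑ t, wt p s t + ∑ z ∈ (s.A ∪ s.B)ᶜ, L p s z

structure Base (p : Par V I) (s : St V I) : Prop where
  sub : s.Big ⊆ s.A
  nonneg : ∀ z i, 0 ≤ s.m z i
  mass : ∀ z, s.mass z ≤ p.T
  mz : ∀ i, i ∉ s.arr → ∀ z, s.m z i = 0
  cz : ∀ i, i ∉ s.arr → s.cnt i = ∅
  csub : ∀ i, s.cnt i ⊆ s.Big ∩ p.l i
  notarr : ∀ i, i ∉ s.arr → Disjoint s.B (p.l i) → ∀ x ∈ s.Big ∩ p.l i, i ∉ p.low x
  reg : ∀ i ∈ s.arr, i ∉ s.done → ∀ z ∈ p.l i, z ∉ s.A → z ∉ s.B →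
    s.m z i * p.lam ^ (s.cnt i).card = p.lam ^ (s.Big ∩ p.l i).card
  cert : ∀ c ∈ s.C, p.lam ^ p.b ≤ s.m c.1 c.2 * p.lam ^ (s.cnt c.2).card

/-- the invariant before a move of the second player -/
def Mid (p : Par V I) (s : St V I) : Prop := Base p s ∧ Phi p s ≤ 6

/-- the invariant before a move of the first player -/
def Good (p : Par V I) (s : St V I) : Prop := Mid p s ∧
  ∀ x z, x ∉ s.A → x ∉ s.B → z ∉ s.A → z ∉ s.B →
    Phi p s + (p.lam - 1) * W p s x + (2 - p.lam) * L p s z ≤ 6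

/-- the lines that arrive when the first player makes a big move at `x` -/
def new (p : Par V I) (s : St V I) (x : V) : Finset I :=
  (p.low x).filter fun i => i ∉ s.arr ∧ Disjoint s.B (p.l i)

/-- a big move of the first player -/
def mk (p : Par V I) (s : St V I) (x : V) : St V I where
  A := insert x s.A
  B := s.B
  Big := insert x s.Big
  C := s.C
  arr := s.arr ∪ new p s x
  cnt i := if i ∈ s.arr ∧ i ∉ s.done ∧ x ∈ p.l i then insert x (s.cnt i) else s.cnt i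
  m z i := if i ∈ new p s x ∧ z ∈ p.l i ∧ z ∉ insert x s.A ∧ z ∉ s.B then
    p.lam ^ ((s.Big ∩ p.l i).card + 1) else s.m z i

/-- the start -/
def st0 (V I : Type) : St V I := ⟨∅, ∅, ∅, ∅, ∅, fun _ => ∅, fun _ _ => 0⟩

theorem mo_nonneg {p : Par V I} {s : St V I} (hs : Base p s) (z : V) (o : Option I) :
    0 ≤ mo p s z o := by
  cases o with
  | none => exact sub_nonneg.2 (hs.mass z)
  | some i => exact hs.nonneg z i

theorem raw_nonneg {p : Par V I} {s : St V I} (hp : Ok p) (hs : Base p s) (t : T1 V I ⊕ T3 p) :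
    0 ≤ raw p s t := by
  have h1 : 0 ≤ p.lam := zero_le_one.trans hp.one
  have h2 := hp.Tpos.le
  cases t with
  | inl t =>
    simp only [raw]
    split_ifs
    · positivity
    · exact le_rfl
  | inr t =>
    have h3 : 0 ≤ ∏ k, mo p s (t.1 k) (t.2 k) := prod_nonneg fun k _ => mo_nonneg hs _ _
    simp only [raw]
    split_ifs
    · positivity
    · exact le_rfl

theorem wt_nonneg {p : Par V I} {s : St V I} (hp : Ok p) (hs : Base p s) (t : T1 V I ⊕ T3 p) :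
    0 ≤ wt p s t := by
  unfold wt
  split_ifs
  · exact raw_nonneg hp hs t
  · exact le_rfl

theorem L_nonneg (p : Par V I) (s : St V I) (z : V) : 0 ≤ L p s z := by
  unfold L
  positivity

theorem W_nonneg {p : Par V I} {s : St V I} (hp : Ok p) (hs : Base p s) (x : V) :
    0 ≤ W p s x :=
  sum_nonneg fun t _ => by
    split_ifs
    · exact wt_nonneg hp hs t
    · exact le_rfl

theorem W_le {p : Par V I} {s : St V I} (hp : Ok p) (hs : Base p s) (x : V) :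
    W p s x ≤ ∑ t, wt p s t :=
  sum_le_sum fun t _ => by
    split_ifs
    · exact le_rfl
    · exact wt_nonneg hp hs t

theorem wt_le_Phi {p : Par V I} {s : St V I} (hp : Ok p) (hs : Base p s) (t : T1 V I ⊕ T3 p) :
    wt p s t ≤ Phi p s :=
  (single_le_sum (fun t _ => wt_nonneg hp hs t) (mem_univ t)).trans
    (le_add_of_nonneg_right (sum_nonneg fun z _ => L_nonneg p s z))

end pot

/-! ### The cube -/

/-- types of lines: a constant, or increasing (`true`), or decreasing (`false`) -/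
abbrev Ty (n d : ℕ) : Type := Fin d → Fin n ⊕ Bool

/-- the point number `i` of the line of type `τ` -/
def pt {n d : ℕ} (τ : Ty n d) (i : Fin n) : Fin d → Fin n :=
  fun j => (τ j).elim id fun b => if b then i else i.rev

def ln {n d : ℕ} (τ : Ty n d) : Finset (Fin d → Fin n) := univ.image (pt τ)

/-- the first active coordinate is increasing -/
def Canon {n d : ℕ} (τ : Ty n d) : Prop :=
  ∃ j, τ j = .inr true ∧ ∀ j' < j, ∃ c, τ j' = .inl c

abbrev Ln (n d : ℕ) : Type := {τ : Ty n d // Canon τ}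

/-- same class under reflection -/
def cl {n : ℕ} (a b : Fin n) : Prop := a = b ∨ a = b.rev

/-- lines through `x` with at most `m0` inactive coordinates in the class of the position -/
def lowS {n d : ℕ} (m0 : ℕ) (x : Fin d → Fin n) : Finset (Ln n d) :=
  univ.filter fun τ => ∃ i, pt τ.1 i = x ∧ i ≠ i.rev ∧
    (univ.filter fun j => ∃ a, τ.1 j = .inl a ∧ cl a i).card ≤ m0

/-- `x` is the centre of the line -/
def cenS {n d : ℕ} (x : Fin d → Fin n) (τ : Ln n d) : Prop := ∃ i, pt τ.1 i = x ∧ i = i.rev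

/-- generic path of length two -/
def GP {n d : ℕ} (y w z : Fin d → Fin n) : Prop :=
  ∃ (τ τ' : Ty n d) (i i' k k' : Fin n), pt τ i = y ∧ pt τ i' = w ∧ pt τ' k = w ∧ pt τ' k' = z ∧
    (∃ j, (τ j).isRight) ∧ (∃ j, (τ' j).isRight) ∧ (∃ j, (τ j).isRight ≠ (τ' j).isRight) ∧
    i ≠ i.rev ∧ ¬ cl i i' ∧ ¬ cl k k' ∧ ¬ cl i k' ∧ ¬ cl i' k'

theorem cl_refl {n : ℕ} (a : Fin n) : cl a a := Or.inl rfl

theorem cl_rev {n : ℕ} (a : Fin n) : cl a.rev a := Or.inr rfl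

theorem cl_symm {n : ℕ} {a b : Fin n} (h : cl a b) : cl b a :=
  h.imp Eq.symm fun e => by rw [e, Fin.rev_rev]

theorem cl_trans {n : ℕ} {a b c : Fin n} (h : cl a b) (h' : cl b c) : cl a c := by
  rcases h with rfl | rfl <;> rcases h' with rfl | rfl <;> simp [cl]

theorem pt_inl {n d : ℕ} {τ : Ty n d} {j : Fin d} {c : Fin n} (h : τ j = .inl c) (i : Fin n) :
    pt τ i j = c := by simp [pt, h]

theorem pt_inr {n d : ℕ} {τ : Ty n d} {j : Fin d} {b : Bool} (h : τ j = .inr b) (i : Fin n) :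
    pt τ i j = if b then i else i.rev := by simp [pt, h]

theorem pt_inj {n d : ℕ} {τ : Ty n d} (h : ∃ j, (τ j).isRight) : Function.Injective (pt τ) := by
  obtain ⟨j, hj⟩ := h
  obtain ⟨b, hb⟩ := Sum.isRight_iff.1 hj
  intro i i' e
  have := congrFun e j
  rw [pt_inr hb, pt_inr hb] at this
  cases b <;> simpa using this

theorem mem_ln {n d : ℕ} {τ : Ty n d} {x : Fin d → Fin n} : x ∈ ln τ ↔ ∃ i, pt τ i = x := by
  simp [ln]

theorem Canon.act {n d : ℕ} {τ : Ty n d} (h : Canon τ) : ∃ j, (τ j).isRight :=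
  let ⟨j, hj, _⟩ := h
  ⟨j, by simp [hj]⟩

/-! ### Statements -/

def RichS : Prop := ∀ (V I : Type) [Fintype V] [DecidableEq V] [Fintype I] [DecidableEq I]
  (l : I → Finset V) (n : ℕ) (cen : V → I → Prop) (G : V → V → V → Prop) (c a r : ℕ)
  (U : Finset V) (R : Finset I), Lin l n → Two l cen G c a → 2 * a ≤ r ^ 2 →
  (∀ i ∈ R, r < (l i ∩ U).card) →
  R.card * r ≤ 2 * U.card ∨ (R.card * r) ^ 2 * r ^ 2 ≤ 4 * c * U.card ^ 3

def SpreadS : Prop := ∀ (V I : Type) [Fintype V] [DecidableEq V] [Fintype I] [DecidableEq I]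
  (l : I → Finset V) (n : ℕ) (cen : V → I → Prop) (G : V → V → V → Prop) (c a r J J0 : ℕ),
  Lin l n → Two l cen G c a → 2 * a ≤ r ^ 2 → 2 * (J0 * n) < J * r →
  4 * c * (J0 * n) ^ 3 < (J * r) ^ 2 * r ^ 2 → Spread l n J J0 (J0 * r)

def ZcS : Prop := ∀ (V I : Type) [Fintype V] [DecidableEq V] [Fintype I] [DecidableEq I]
  (l : I → Finset V) (n Dm i0 J0 : ℕ), Lin l n → 1 ≤ n →
  (∀ x, (univ.filter fun i => x ∈ l i).card ≤ Dm) →
  (Zs l i0 J0).card ≤ Fintype.card V * Dm * (n * Dm) ^ i0 * (i0 * n) ^ J0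

def HlS : Prop := ∀ (V I : Type) [Fintype V] [DecidableEq V] [Fintype I] [DecidableEq I]
  (l : I → Finset V) (n J J0 E t0 i0 : ℕ) (C : Finset (V × I)), Lin l n → Spread l n J J0 E →
  2 * J + i0 ^ 2 ≤ i0 * t0 → (∀ i, (C.filter fun p => p.2 = i).card ≤ 2) →
  (∀ z ∈ Zs l i0 J0, ∀ σ : Fin J0 → I, (∀ k, (z k, σ k) ∈ C) →
    (univ.biUnion fun k => l (σ k)).card + E < J0 * n) →
  ∀ i, (rich l t0 C i).card < i0

def FreeS : Prop := ∀ (V I : Type) [Fintype V] [DecidableEq V] [Fintype I] [DecidableEq I]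
  (l : I → Finset V) (n b t0 i0 : ℕ) (A B Big : Finset V) (C Hv : Finset (V × I)) (i : I),
  Lin l n → b + t0 + i0 + 1 ≤ n → PI l t0 A B Big C Hv → Cap l b t0 B Big C Hv →
  (rich l t0 C i).card < i0 → i ∉ (C ∪ Hv).image Prod.snd → Disjoint B (l i) →
  ∃ z z', z ≠ z' ∧ z ∈ l i ∧ z' ∈ l i ∧ z ∉ A ∧ z' ∉ A ∧
    z ∉ (C ∪ Hv).image Prod.fst ∧ z' ∉ (C ∪ Hv).image Prod.fst

def LoopS : Prop := ∀ (V I : Type) [Fintype V] [DecidableEq V] [Fintype I] [DecidableEq I]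
  (l : I → Finset V) (n b t i0 J0 E : ℕ) (Z : Finset (Fin J0 → V))
  (G M : Finset V → Finset V → Finset V → Finset (V × I) → Prop),
  Lin l n → b + 1 + (t + 1) + i0 + 1 ≤ n → Eng l n (b + 1) J0 E Z G M → FewRich l (t + 1) i0 M →
  ∀ (A B Big : Finset V) (C Hv : Finset (V × I)), M A B Big C → PI l (t + 1) A B Big C Hv →
    Cap l (b + 1) (t + 1) B Big C Hv →
    ∃ C' Hv', M A B Big C' ∧ PI l (t + 1) A B Big C' Hv' ∧ Cap l b t B Big C' Hv'

def GameS : Prop := ∀ (V I : Type) [Fintype V] [DecidableEq V] [Fintype I] [DecidableEq I]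
  (l : I → Finset V) (n b t i0 J0 E : ℕ) (Z : Finset (Fin J0 → V))
  (G M : Finset V → Finset V → Finset V → Finset (V × I) → Prop),
  Lin l n → b + 1 + (t + 1) + i0 + 1 ≤ n → Eng l n (b + 1) J0 E Z G M → FewRich l (t + 1) i0 M →
  ∀ H K : Finset V → Prop, (∀ A, H A → ∃ i, l i ⊆ A) → ¬ Win H K ∅ ∅ true

def InitS : Prop := ∀ (V I : Type) [Fintype V] [DecidableEq V] [Fintype I] [DecidableEq I]
  (p : Par V I), Ok p → Good p (st0 V I)

def BestS : Prop := ∀ (V I : Type) [Fintype V] [DecidableEq V] [Fintype I] [DecidableEq I]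
  (p : Par V I) (s : St V I), Ok p →
  (∀ x, Good p s → x ∉ s.A → x ∉ s.B → Good p { s with A := insert x s.A }) ∧
  (∀ y, Good p s → y ∉ s.A → y ∉ s.B → Good p { s with B := insert y s.B }) ∧
  (Mid p s → (∃ y, y ∉ s.A ∧ y ∉ s.B) →
    ∃ y, y ∉ s.A ∧ y ∉ s.B ∧ Good p { s with B := insert y s.B })

def FrzS : Prop := ∀ (V I : Type) [Fintype V] [DecidableEq V] [Fintype I] [DecidableEq I]
  (p : Par V I) (s : St V I), Ok p → Mid p s →
  (∀ i z z', i ∉ s.done → Disjoint s.B (p.l i) → p.b ≤ (s.Big ∩ p.l i).card → z ∈ p.l i →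
    z' ∈ p.l i → z ∉ s.A → z' ∉ s.A →
    Mid p { s with C := insert (z, i) (insert (z', i) s.C) }) ∧
  ∀ z ∈ p.Z, ∀ σ : Fin p.J0 → I, (∀ k, (z k, σ k) ∈ s.C) →
    (univ.biUnion fun k => p.l (σ k)).card + p.E < p.J0 * p.n

def Big1S : Prop := ∀ (V I : Type) [Fintype V] [DecidableEq V] [Fintype I] [DecidableEq I]
  (p : Par V I) (s : St V I) (x : V), Ok p → Base p s → x ∉ s.A → x ∉ s.B →
  (0 ≤ ∑ t, wt p (mk p s x) (.inl t) ∧ ∑ t, wt p (mk p s x) (.inl t) ≤ ∑ t, wt p s (.inl t) +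
    (p.lam - 1) * ∑ t, if x ∈ kill p s (.inl t) then wt p s (.inl t) else 0) ∧
  (Phi p s ≤ 6 → ∑ i ∈ new p s x, p.lam ^ ((s.Big ∩ p.l i).card + 1) ≤ p.M)

def Big2S : Prop := ∀ (V I : Type) [Fintype V] [DecidableEq V] [Fintype I] [DecidableEq I]
  (p : Par V I) (s : St V I) (x : V) (Lm : ℝ), Ok p → Base p s → x ∉ s.A → x ∉ s.B →
  ∑ i ∈ new p s x, p.lam ^ ((s.Big ∩ p.l i).card + 1) ≤ p.M →
  (∀ z, z ∉ s.A → z ∉ s.B → L p s z ≤ Lm) →
  ∑ z ∈ (insert x s.A ∪ s.B)ᶜ, L p (mk p s x) z ≤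
    ∑ z ∈ (s.A ∪ s.B)ᶜ, L p s z + (2 - p.lam) * Lm

def Big3S : Prop := ∀ (V I : Type) [Fintype V] [DecidableEq V] [Fintype I] [DecidableEq I]
  (p : Par V I) (s : St V I) (x : V), Ok p → Base p s → x ∉ s.A → x ∉ s.B →
  0 ≤ ∑ t, wt p (mk p s x) (.inr t) ∧ ∑ t, wt p (mk p s x) (.inr t) ≤ ∑ t, wt p s (.inr t) +
    (p.lam - 1) * ∑ t, if x ∈ kill p s (.inr t) then wt p s (.inr t) else 0

def BigS : Prop := ∀ (V I : Type) [Fintype V] [DecidableEq V] [Fintype I] [DecidableEq I]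
  (p : Par V I) (s : St V I) (x : V), Ok p → Good p s → x ∉ s.A → x ∉ s.B → Mid p (mk p s x)

/-- oriented lines -/
def OriS : Prop := ∀ n d : ℕ,
  (∀ τ : Ty n d, (∃ j, (τ j).isRight) → IsLine (pt τ) ∧ (ln τ).card = n) ∧
  (∀ x y : Fin d → Fin n, x ≠ y →
    (univ.filter fun τ : Ty n d => x ∈ ln τ ∧ y ∈ ln τ).card ≤ n ^ 2) ∧
  ∀ x : Fin d → Fin n, (univ.filter fun τ : Ty n d => x ∈ ln τ).card ≤ n * 3 ^ d

/-- canonical lines -/
def CanS : Prop := ∀ n d : ℕ, 2 ≤ n → Lin (fun τ : Ln n d => ln τ.1) n ∧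
  (∀ A : Finset (Fin d → Fin n), HasLine A → ∃ τ : Ln n d, ln τ.1 ⊆ A) ∧
  ∀ (τ τ' : Ln n d) (i k : Fin n), pt τ.1 i = pt τ'.1 k → i ≠ i.rev →
    (∀ j, (τ.1 j).isRight = (τ'.1 j).isRight) → τ = τ'

def LowS : Prop := ∀ n d m0 : ℕ,
  (∀ x : Fin d → Fin n, (lowS m0 x).card ≤ n * ∑ k ∈ range (m0 + 1), d.choose k) ∧
  ∀ τ : Ln n d, ((ln τ.1).filter fun x => τ ∉ lowS m0 x).card ≤ 2 * d / (m0 + 1) + 1

def FewS : Prop := ∀ (n d : ℕ) (y z : Fin d → Fin n),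
  ∃ S : Finset (Fin d → Fin n), S.card ≤ 128 ∧ ∀ w, GP y w z → w ∈ S

def TwoS : Prop := ∀ n d : ℕ, 2 ≤ n → Two (fun τ : Ln n d => ln τ.1) cenS GP 128 (9 * n)

def ParAS : Prop := ∀ q : ℕ, 8 ≤ q → ∃ n0 : ℕ, ∀ n ≥ n0, ∃ J r i0 b t : ℕ, i0 = 800 * q ^ 5 ∧
  2 * (9 * n) ≤ r ^ 2 ∧ 2 * (q * n * n) < J * r ∧
  4 * 128 * (q * n * n) ^ 3 < (J * r) ^ 2 * r ^ 2 ∧ 2 * J + i0 ^ 2 ≤ i0 * (t + 1) ∧
  b + 1 + (t + 1) + i0 + 1 ≤ n ∧ q * n + q * r ≤ q * (b + 1) + 3 * n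

def ParBS : Prop := ∀ q i0 : ℕ, 8 ≤ q → ∃ n0 : ℕ, ∀ n ≥ n0, ∀ N Dm D h b r : ℕ, 1 ≤ N →
  N ≤ 2 ^ n ^ 2 → Dm ^ (i0 + 1) ≤ 2 ^ n ^ 2 → D ^ q * 2 ^ (8 * n) ≤ 2 ^ (q * n) →
  q * h + 8 * n ≤ q * n → q * n + q * r ≤ q * b + 3 * n →
  ∃ lam θ T : ℝ, 1 ≤ lam ∧ lam ≤ 2 ∧ 0 < θ ∧
    2 * n * θ * (lam * (2 * lam ^ h * Real.log (6 * N) + 2 * D)) ≤ 2 - lam ∧ 0 < T ∧
    Real.log (6 * N) ≤ θ * T ∧
    6 * (N * Dm * (n * Dm) ^ i0 * (i0 * n) ^ (q * n) : ℕ) * T ^ (q * n) * lam ^ (q * n * r) <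
      lam ^ (q * n * b)

def NumS : Prop := ∀ ε : ℝ, 0 < ε → ∃ q : ℕ, 8 ≤ q ∧ ∀ i0 : ℕ, ∃ n0 : ℕ, ∀ n ≥ n0, ∀ d : ℕ,
  (d : ℝ) ≤ (1 - ε) * (Real.log 2 / 2 * n ^ 2 / Real.log n) → ∃ m0 : ℕ,
    n ^ d ≤ 2 ^ n ^ 2 ∧ (n * 3 ^ d) ^ (i0 + 1) ≤ 2 ^ n ^ 2 ∧
    (n * ∑ k ∈ range (m0 + 1), d.choose k) ^ q * 2 ^ (8 * n) ≤ 2 ^ (q * n) ∧
    q * (2 * d / (m0 + 1) + 1) + 8 * n ≤ q * n

def WinS : Prop := ∀ (V I : Type) [Fintype V] [DecidableEq V] (l : I → Finset V) (n Δ : ℕ)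
  (F : Finset I) (H : Finset V → Prop), (∀ i ∈ F, (l i).card = n) →
  (∀ x y, x ≠ y → (F.filter fun i => x ∈ l i ∧ y ∈ l i).card ≤ Δ) →
  (∀ A, (∃ i ∈ F, l i ⊆ A) → H A) → (F.biUnion l).card * (Δ * 2 ^ n) < F.card →
  Win H (fun _ => False) ∅ ∅ true

def DegS : Prop := ∀ n d s m : ℕ, 1 ≤ s → s + n / 2 * m ≤ d → ∃ F : Finset (Ty n d),
  F.Nonempty ∧ (∀ τ ∈ F, ∃ j, (τ j).isRight) ∧ ∀ τ ∈ F, ∀ i,
    min ((s + m).choose m) (2 ^ s) ≤ (F.filter fun τ' => pt τ i ∈ ln τ').card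

def MnumS : Prop := ∀ ε : ℝ, 0 < ε → ∃ n0 : ℕ, ∀ n ≥ n0, ∀ d : ℕ,
  (1 + ε) * (Real.log 2 / 2 * n ^ 2 / Real.log n) ≤ d → ∃ s m : ℕ, 1 ≤ s ∧ s + n / 2 * m ≤ d ∧
    n ^ 3 * 2 ^ n < (s + m).choose m ∧ n ^ 3 * 2 ^ n < 2 ^ s

/-! ### Rows with hypotheses -/

def OfSpread : Prop := RichS → SpreadS
def OfLoop : Prop := FreeS → LoopS
def OfGame : Prop := FreeS → LoopS → GameS
def OfBig : Prop := Big1S → Big2S → Big3S → BigS
def OfTwo : Prop := CanS → FewS → TwoS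

end

end Pool.Agent.MP_c9a892_co.H41
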